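import Pool.Agent.Lib.MP_d9bae3_nt.SK.Main
import Pool.Agent.Lib.MP_d9bae3_nt.SK.HouseT
import Pool.Agent.Lib.MP_d9bae3_nt.SK.RubinForm

/-!
# Stark's conjecture of order `r` for random abelian extensions

Let `F` be a number field which contains the `e`-th roots of unity and `A = ∏ ℤ/n_i` a finite abelian group with `n_i ∣ e`.  For a family
`b` of integers `b_v ∈ 𝓞 F`, `v ∈ A`, let `H = F(a_i ^ (1/n_i))`, `a_i = ∏_v b_v ^ v_i`.  (A prime which divides `b_v` exactly once and no other
`b_w` has the inertia group generated by `v`; every abelian extension with a group `A` arises.)  For one hundred per cent of the `b` the Galois group is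
`A` and, for all admissible `S` and `T`, the L-functions `L_{S,T}(χ,s)` of all non-faithful characters `χ` vanish at `0` to an order greater than
`r + K`, where `r` is the number of places in `S` which split completely and `K` is arbitrary.  If `A` is not cyclic then the element
`θ` of Stark's conjecture of order `r` is zero for all `S, T`, and the conjecture, in Rubin's equivalent form, holds for `H/F, S, T`
(with `θ = 0`).
-/

namespace Pool.Agent.Lib.MP_d9bae3_nt.RandomExtensions

open NumberField Filter Topology StarkR

/-- The conclusion for the family `b`: for every Galois extension `H` of `F` generated by roots `α_i` of the `a_i`,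
(1) `Gal(H/F)` is isomorphic to the group `∏ ℤ/n_i`;
(2) for every non-faithful character `χ`, all finite sets `S, T` of primes such that `S` contains the ramified primes, and the L-function `Λ` of
`χ`, all derivatives of `L_{S,T}(χ,s)` at `0` up to the order `r + K` are zero, `r` the number of places of `S` (with the archimedean ones) which
split completely;
(3) if `Gal(H/F)` is not cyclic, the derivatives at `0` of all orders up to `r + K` of the Stickelberger element are zero for all these `S, T`
(in particular `θ = 0`, its derivative of order `r`), and Stark's conjecture of order `r`, in Rubin's equivalent form, holds for `H/F, S, T`. -/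
def Fine {F : Type} [Field F] [NumberField F] {m : ℕ} {n : Fin m → ℕ} [∀ i, NeZero (n i)] (K : ℕ)
    (b : V n → 𝓞 F) : Prop :=
  ∀ (H : Type) [Field H] [NumberField H] [Algebra F H] [IsGalois F H] (α : Fin m → H), IsExt b H α →
    Nonempty (Gal(H/F) ≃* Multiplicative (V n)) ∧
    (∀ (χ : Gal(H/F) →* ℂˣ) (Λ : ℂ → ℂ) (S T : Finset (Prm F)), χ.ker ≠ ⊥ → IsLFunction χ Λ →
      (∀ q : Prm F, Ramified H q → q ∈ S) →
      ∀ k ≤ splitNumber H S + K, iteratedDeriv k (LST Λ χ S T) 0 = 0) ∧
    (¬ IsCyclic Gal(H/F) → ∀ (Λ : (Gal(H/F) →* ℂˣ) → ℂ → ℂ) (S T : Finset (Prm F)), (∀ χ, IsLFunction χ (Λ χ)) →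
      (∀ q : Prm F, Ramified H q → q ∈ S) → (∀ k ≤ splitNumber H S + K, theta Λ S T k = 0) ∧
        StarkRubin Λ S T (splitNumber H S))

/-- Let the number field `F` contain a primitive `e`-th root of unity, and let `n_i ∣ e`.  For every `K`, one hundred per cent of the families `b` of
integers of `F`, indexed by the group `∏ ℤ/n_i` and ordered by their largest absolute value, have the property `Fine K`. -/
theorem result (F : Type) [Field F] [NumberField F] (e : ℕ) (he : 0 < e) (ζ : F) (hζ : IsPrimitiveRoot ζ e)
    (m : ℕ) (n : Fin m → ℕ) [∀ i, NeZero (n i)] (hn : ∀ i, n i ∣ e) (K : ℕ) :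
    Tendsto (fun X : ℕ => (Set.ncard {b : V n → 𝓞 F | b ∈ Box F n X ∧ Fine K b} : ℝ) / ((Box F n X).ncard : ℝ))
      atTop (𝓝 1) := by
  have h1 := rich_all (F := F) (n := n) he (K + Module.finrank ℚ F + 1)
  refine tendsto_of_tendsto_of_tendsto_of_le_of_le h1 tendsto_const_nhds (fun X => ?_) fun X => ?_
  · refine div_le_div_of_nonneg_right ?_ (Nat.cast_nonneg _)
    have hsub : {b : V n → 𝓞 F | b ∈ Box F n X ∧ Rich e (K + Module.finrank ℚ F + 1) b} ⊆
        {b : V n → 𝓞 F | b ∈ Box F n X ∧ Fine K b} := by
      rintro b ⟨hb, hr⟩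
      refine ⟨hb, fun H _ _ _ _ α h => ?_⟩
      have hiso := gal_iso hζ he hn (rich_mono (by omega) hr) h
      refine ⟨hiso, ?_, ?_⟩
      · intro χ Λ S T hχ hΛ hS k hk
        exact main_van hζ he hn hr h hχ hΛ S T hS k hk
      · intro hc Λ S T hΛ hS
        have hth := main_theta hζ he hn hr h hc hΛ S T hS
        exact ⟨hth, starkRubin_of_theta (hth _ (by omega))⟩
    exact Nat.cast_le.2 (Set.ncard_le_ncard hsub ((Box_finite X).subset fun b hb => hb.1))
  · refine div_le_one_of_le₀ ?_ (Nat.cast_nonneg _)
    exact Nat.cast_le.2 (Set.ncard_le_ncard (show {b : V n → 𝓞 F | b ∈ Box F n X ∧ Fine K b} ⊆ Box F n X from fun b hb => hb.1)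
      (Box_finite X))

end Pool.Agent.Lib.MP_d9bae3_nt.RandomExtensions
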